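import Mathlib.Algebra.Order.Ring.Star
import Mathlib.Analysis.Calculus.Deriv.Shift
import Mathlib.Analysis.Calculus.FDeriv.Measurable
import Mathlib.Analysis.Calculus.Deriv.Prod
import Mathlib.Topology.MetricSpace.UniformConvergence
import Mathlib.MeasureTheory.Integral.IntervalIntegral.AbsolutelyContinuousFun
import Mathlib.Topology.UniformSpace.Ascoli
import Pool.Agent.MP_7f5071_gt.Spec
import Mathlib.Analysis.Calculus.MeanValue
import Mathlib.Tactic.Monotonicity.Lemmas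
import Mathlib.Algebra.Order.Star.Real
import Mathlib.Topology.Sheaves.Presheaf

-- ======== part 0: formerly Pool.Agent.MP_7f5071_gt.FD.Crv
section MrgPart0

/-! Line integrals along Lipschitz curves. -/

namespace Pool.Agent.MP_7f5071_gt.FD

open Filter Topology Set Metric MeasureTheory

variable {X : Type*} [MetricSpace X] {N : ℕ}

theorem lipW {E : Type*} [NormedAddCommGroup E] {K : ℝ} {F : X → E} (hK : 0 ≤ K)
    (h : Lip K F) : LipschitzWith ⟨K, hK⟩ F :=
  LipschitzWith.of_dist_le_mul fun x y => by rw [dist_eq_norm]; exact h x y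

theorem Lip.cont {E : Type*} [NormedAddCommGroup E] {K : ℝ} {F : X → E} (hK : 0 ≤ K)
    (h : Lip K F) : Continuous F := (lipW hK h).continuous

theorem int_deriv {f : ℝ → V N} {C : NNReal} (hf : LipschitzWith C f) {g : ℝ → ℝ}
    (hg : Continuous g) (a b : ℝ) :
    IntervalIntegrable (fun t => g t • deriv f t) volume a b := by
  have h1 : IntervalIntegrable (fun t => ‖g t‖ * C) volume a b :=
    (hg.norm.mul continuous_const).intervalIntegrable a b
  refine h1.mono_fun' ?_ (Eventually.of_forall fun t => ?_)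
  · exact hg.aestronglyMeasurable.smul (aestronglyMeasurable_deriv f _)
  · simp only [norm_smul]
    exact mul_le_mul_of_nonneg_left (norm_deriv_le_of_lipschitz hf) (norm_nonneg _)

theorem ftc {f : ℝ → V N} {C : NNReal} (hf : LipschitzWith C f) (a b : ℝ) :
    ∫ t in a..b, deriv f t = f b - f a := by
  have hi : IntervalIntegrable (fun t => deriv f t) volume a b := by
    simpa using int_deriv hf (g := fun _ => 1) continuous_const a b
  ext i
  have h1 := (ContinuousLinearMap.proj (R := ℝ) (φ := fun _ : Fin N => ℝ) i).intervalIntegral_comp_comm hi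
  have hl : LipschitzWith C (fun t => f t i) := by
    have := (LipschitzWith.eval (α := fun _ : Fin N => ℝ) i).comp hf
    rw [one_mul] at this
    exact this
  have h2 := (hl.lipschitzOnWith (s := uIcc a b)).absolutelyContinuousOnInterval.integral_deriv_eq_sub
  have h3 : ∫ t in a..b, deriv f t i = ∫ t in a..b, deriv (fun t => f t i) t := by
    refine intervalIntegral.integral_congr_ae ?_
    filter_upwards [hf.ae_differentiableAt_real] with t ht _
    exact ((hasDerivAt_pi.1 ht.hasDerivAt i).deriv).symm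
  simp only [ContinuousLinearMap.proj_apply] at h1
  rw [← h1, h3, h2]; rfl

/-- The line integral of `φ dH` along `Γ` between the times `s` and `t`. -/
noncomputable def LI (H : X → V N) (φ : X → ℝ) (Γ : ℝ → X) (s t : ℝ) : V N :=
  ∫ u in s..t, φ (Γ u) • deriv (fun v => H (Γ v)) u

theorem J_eq (H : X → V N) (φ : X → ℝ) (γ : Cv X) : Cv.J H φ γ = LI H φ γ.ext 0 1 := rfl

theorem comp_lip {H : X → V N} {L : ℝ} (hL : 0 ≤ L) (hH : Lip L H) {Γ : ℝ → X}
    (hΓ : LipschitzWith 1 Γ) : LipschitzWith ⟨L, hL⟩ (fun v => H (Γ v)) := by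
  have := (lipW hL hH).comp hΓ
  rw [mul_one] at this
  exact this

theorem LI_int {H : X → V N} {L : ℝ} (hL : 0 ≤ L) (hH : Lip L H) {φ : X → ℝ}
    (hφ : Continuous φ) {Γ : ℝ → X} (hΓ : LipschitzWith 1 Γ) (s t : ℝ) :
    IntervalIntegrable (fun u => φ (Γ u) • deriv (fun v => H (Γ v)) u) volume s t :=
  int_deriv (comp_lip hL hH hΓ) (hφ.comp hΓ.continuous) s t

theorem LI_add {H : X → V N} {L : ℝ} (hL : 0 ≤ L) (hH : Lip L H) {φ : X → ℝ}
    (hφ : Continuous φ) {Γ : ℝ → X} (hΓ : LipschitzWith 1 Γ) (s t u : ℝ) :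
    LI H φ Γ s t + LI H φ Γ t u = LI H φ Γ s u :=
  intervalIntegral.integral_add_adjacent_intervals (LI_int hL hH hφ hΓ s t)
    (LI_int hL hH hφ hΓ t u)

omit [MetricSpace X] in
theorem LI_self (H : X → V N) (φ : X → ℝ) (Γ : ℝ → X) (s : ℝ) : LI H φ Γ s s = 0 :=
  intervalIntegral.integral_same

theorem LI_sum {H : X → V N} {L : ℝ} (hL : 0 ≤ L) (hH : Lip L H) {φ : X → ℝ}
    (hφ : Continuous φ) {Γ : ℝ → X} (hΓ : LipschitzWith 1 Γ) (a : ℕ → ℝ) (n : ℕ) :
    ∑ k ∈ Finset.range n, LI H φ Γ (a k) (a (k + 1)) = LI H φ Γ (a 0) (a n) := by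
  induction n with
  | zero => simp [LI_self]
  | succ n ih => rw [Finset.sum_range_succ, ih, LI_add hL hH hφ hΓ]

omit [MetricSpace X] in
theorem LI_congr (H : X → V N) (φ : X → ℝ) {Γ Γ' : ℝ → X} {s t k : ℝ} (hst : s ≤ t)
    (h : ∀ u ∈ Ioo s t, Γ u = Γ' (u + k)) : LI H φ Γ s t = LI H φ Γ' (s + k) (t + k) := by
  unfold LI
  rw [← intervalIntegral.integral_comp_add_right
    (fun u => φ (Γ' u) • deriv (fun v => H (Γ' v)) u) k]
  refine intervalIntegral.integral_congr_ae ?_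
  filter_upwards [compl_mem_ae_iff.2 (Real.volume_singleton (a := t))] with u hu hu'
  rw [uIoc_of_le hst] at hu'
  have hu2 : u ∈ Ioo s t := ⟨hu'.1, lt_of_le_of_ne hu'.2 hu⟩
  have he : (fun v => H (Γ v)) =ᶠ[𝓝 u] fun v => (fun v => H (Γ' v)) (v + k) := by
    filter_upwards [isOpen_Ioo.mem_nhds hu2] with v hv
    rw [h v hv]
  rw [he.deriv_eq, deriv_comp_add_const (fun v => H (Γ' v)) k u, h u hu2]

omit [MetricSpace X] in
theorem LI_const (H : X → V N) (φ : X → ℝ) (p : X) (s t : ℝ) : LI H φ (fun _ => p) s t = 0 := by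
  simp [LI]

theorem LI_est {H : X → V N} {L : ℝ} (hL : 0 ≤ L) (hH : Lip L H) {φ : X → ℝ}
    (hφ : Continuous φ) {Γ : ℝ → X} (hΓ : LipschitzWith 1 Γ) {s t c ε : ℝ} (hst : s ≤ t)
    (h : ∀ u ∈ Icc s t, |φ (Γ u) - c| ≤ ε) :
    ‖LI H φ Γ s t - c • (H (Γ t) - H (Γ s))‖ ≤ ε * L * (t - s) := by
  have hl := comp_lip hL hH hΓ
  have h1 : c • (H (Γ t) - H (Γ s)) = ∫ u in s..t, c • deriv (fun v => H (Γ v)) u := by
    rw [intervalIntegral.integral_smul, ftc hl]
  rw [h1, LI, ← intervalIntegral.integral_sub (LI_int hL hH hφ hΓ s t)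
    (int_deriv hl (g := fun _ => c) continuous_const s t)]
  have := intervalIntegral.norm_integral_le_of_norm_le_const (a := s) (b := t) (C := ε * L)
    (f := fun u => φ (Γ u) • deriv (fun v => H (Γ v)) u - c • deriv (fun v => H (Γ v)) u)
    (fun u hu => by
      rw [uIoc_of_le hst] at hu
      rw [← sub_smul, norm_smul, Real.norm_eq_abs]
      have h0 := h u (Ioc_subset_Icc_self hu)
      exact mul_le_mul h0 (norm_deriv_le_of_lipschitz hl) (norm_nonneg _)
        ((abs_nonneg _).trans h0))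
  rwa [abs_of_nonneg (sub_nonneg.2 hst)] at this

theorem ext_lip (γ : Cv X) : LipschitzWith 1 γ.ext := by
  have := γ.2.comp (LipschitzWith.projIcc (zero_le_one' ℝ))
  rw [mul_one] at this
  exact this

theorem cont_ext (t : ℝ) : Continuous fun γ : Cv X => γ.ext t :=
  (continuous_eval_const (F := C(unitInterval, X)) (projIcc 0 1 zero_le_one t)).comp continuous_subtype_val

theorem cont_J {H : X → V N} {L : ℝ} (hL : 0 ≤ L) (hH : Lip L H) {φ : X → ℝ} {K : ℝ}
    (hK : 0 ≤ K) (hφ : Lip K φ) : Continuous (Cv.J H φ) := by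
  have hc := Lip.cont hK hφ
  have hHc := Lip.cont hL hH
  let a : ℕ → ℕ → ℝ := fun n k => (k : ℝ) / (n + 1)
  let R : ℕ → Cv X → V N := fun n γ => ∑ k ∈ Finset.range (n + 1),
    φ (γ.ext (a n k)) • (H (γ.ext (a n (k + 1))) - H (γ.ext (a n k)))
  have hR : ∀ n, Continuous (R n) := fun n =>
    continuous_finsetSum _ fun k _ => (hc.comp (cont_ext _)).smul
      ((hHc.comp (cont_ext _)).sub (hHc.comp (cont_ext _)))
  have hb : ∀ n γ, ‖Cv.J H φ γ - R n γ‖ ≤ K * L / (n + 1) := by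
    intro n γ
    have hn : (0 : ℝ) < n + 1 := by positivity
    have h0 : a n 0 = 0 := by simp [a]
    have h1 : a n (n + 1) = 1 := by simp only [a]; push_cast; exact div_self hn.ne'
    have hd : ∀ k, a n (k + 1) - a n k = 1 / (n + 1) := by
      intro k; simp only [a]; push_cast; ring
    have hs := LI_sum hL hH hc (ext_lip γ) (a n) (n + 1)
    rw [h0, h1] at hs
    rw [J_eq, ← hs, ← Finset.sum_sub_distrib]
    refine (norm_sum_le _ _).trans ?_
    have : ∀ k ∈ Finset.range (n + 1), ‖LI H φ γ.ext (a n k) (a n (k + 1)) -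
        φ (γ.ext (a n k)) • (H (γ.ext (a n (k + 1))) - H (γ.ext (a n k)))‖ ≤
        K / (n + 1) * L * (1 / (n + 1)) := by
      intro k _
      have hle : a n k ≤ a n (k + 1) := by
        have := hd k
        have : (0 : ℝ) < 1 / (n + 1) := by positivity
        linarith
      rw [← hd k]
      refine LI_est hL hH hc (ext_lip γ) hle fun u hu => ?_
      have h2 := hφ (γ.ext u) (γ.ext (a n k))
      have h3 := (ext_lip γ).dist_le_mul u (a n k)
      rw [Real.dist_eq, abs_of_nonneg (sub_nonneg.2 hu.1)] at h3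
      have h4 : dist (γ.ext u) (γ.ext (a n k)) ≤ 1 / (n + 1) := by
        have := hd k
        have := hu.2
        simp only [NNReal.coe_one] at h3
        linarith
      calc _ ≤ K * dist (γ.ext u) (γ.ext (a n k)) := h2
        _ ≤ K * (1 / (n + 1)) := mul_le_mul_of_nonneg_left h4 hK
        _ = _ := by ring
    refine (Finset.sum_le_sum this).trans (le_of_eq ?_)
    rw [Finset.sum_const, Finset.card_range, nsmul_eq_mul]
    push_cast
    field_simp
  have hu : TendstoUniformly R (Cv.J H φ) atTop := by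
    rw [Metric.tendstoUniformly_iff]
    intro ε hε
    have ht : Tendsto (fun n : ℕ => K * L / ((n : ℝ) + 1)) atTop (𝓝 0) :=
      tendsto_const_nhds.div_atTop (tendsto_natCast_atTop_atTop.atTop_add tendsto_const_nhds)
    filter_upwards [ht.eventually (gt_mem_nhds hε)] with n hn γ
    rw [dist_eq_norm]
    exact (hb n γ).trans_lt hn
  exact hu.continuous (Frequently.of_forall hR)

instance compactCv [CompactSpace X] : CompactSpace (Cv X) := by
  have : IsCompact {γ : C(unitInterval, X) | LipschitzWith 1 γ} := by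
    refine ArzelaAscoli.isCompact_of_equicontinuous _ ?_ ?_
    · have : ContinuousMap.toFun '' {γ : C(unitInterval, X) | LipschitzWith 1 γ} =
          {f : unitInterval → X | LipschitzWith 1 f} := by
        ext f
        constructor
        · rintro ⟨γ, h, rfl⟩; exact h
        · intro h; exact ⟨⟨f, h.continuous⟩, h, rfl⟩
      rw [this]
      exact (isClosed_setOfPred_lipschitzWith 1).isCompact
    · exact (LipschitzWith.uniformEquicontinuous _ 1 fun γ => γ.2).equicontinuous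
  exact isCompact_iff_compactSpace.1 this

end Pool.Agent.MP_7f5071_gt.FD

end MrgPart0

-- ======== part 1: formerly Pool.Agent.MP_7f5071_gt.EulBase
section MrgPart1

/-! Elementary facts on the polygonal norms, used by the modules EUL and L3. -/

namespace Pool.Agent.MP_7f5071_gt

open Filter Topology Set Metric MeasureTheory

namespace Eul

variable {J : ℕ}

/-- The linear map whose sup norm is `nrm ξ`. -/
noncomputable def Xi (ξ : Fin J → R2) : R2 →L[ℝ] (Fin J → ℝ) :=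
  ContinuousLinearMap.pi fun j =>
    (ξ j).1 • ContinuousLinearMap.fst ℝ ℝ ℝ + (ξ j).2 • ContinuousLinearMap.snd ℝ ℝ ℝ

lemma Xi_apply (ξ : Fin J → R2) (v : R2) (j : Fin J) : Xi ξ v j = ev (ξ j) v := by
  simp [Xi, ev]

lemma nrm_eq (ξ : Fin J → R2) (v : R2) : nrm ξ v = ‖Xi ξ v‖ := by
  have : Xi ξ v = fun j => ev (ξ j) v := funext (Xi_apply ξ v)
  rw [this, nrm]

lemma nrm_nonneg (ξ : Fin J → R2) (v : R2) : 0 ≤ nrm ξ v := norm_nonneg _

lemma nrm_zero (ξ : Fin J → R2) : nrm ξ 0 = 0 := by simp [nrm_eq]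

lemma nrm_add_le (ξ : Fin J → R2) (v w : R2) : nrm ξ (v + w) ≤ nrm ξ v + nrm ξ w := by
  simp only [nrm_eq, map_add]
  exact norm_add_le _ _

lemma nrm_sub_le (ξ : Fin J → R2) (v w : R2) : nrm ξ (v - w) ≤ nrm ξ v + nrm ξ w := by
  simp only [nrm_eq, map_sub]
  exact norm_sub_le _ _

lemma nrm_smul (ξ : Fin J → R2) (c : ℝ) (v : R2) : nrm ξ (c • v) = |c| * nrm ξ v := by
  simp only [nrm_eq, map_smul, norm_smul, Real.norm_eq_abs]

lemma nrm_neg (ξ : Fin J → R2) (v : R2) : nrm ξ (-v) = nrm ξ v := by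
  simp only [nrm_eq, map_neg, norm_neg]

lemma continuous_nrm (ξ : Fin J → R2) : Continuous (nrm ξ) := by
  have : nrm ξ = fun v => ‖Xi ξ v‖ := funext (nrm_eq ξ)
  rw [this]
  exact (Xi ξ).continuous.norm

lemma abs_ev_le (ξ : Fin J → R2) (v : R2) (j : Fin J) : |ev (ξ j) v| ≤ nrm ξ v := by
  have := norm_le_pi_norm (Xi ξ v) j
  rwa [Xi_apply, ← nrm_eq, Real.norm_eq_abs] at this

lemma abs_fst_le (v : R2) : |v.1| ≤ ‖v‖ := norm_fst_le v

lemma abs_snd_le (v : R2) : |v.2| ≤ ‖v‖ := norm_snd_le v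

lemma norm_le_of_abs {v : R2} {c : ℝ} (h1 : |v.1| ≤ c) (h2 : |v.2| ≤ c) : ‖v‖ ≤ c :=
  max_le h1 h2

lemma norm_le_nrm {ξ : Fin J → R2} (h : Normal ξ) (v : R2) : ‖v‖ ≤ nrm ξ v := by
  obtain ⟨⟨j, hj⟩, ⟨k, hk⟩, -⟩ := h
  have h1 := abs_ev_le ξ v j
  have h2 := abs_ev_le ξ v k
  rw [hj] at h1
  rw [hk] at h2
  simp only [ev, one_mul, zero_mul, add_zero, zero_add] at h1 h2
  exact norm_le_of_abs h1 h2

lemma nrm_le {ξ : Fin J → R2} (h : Normal ξ) (v : R2) : nrm ξ v ≤ 2 * ‖v‖ := by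
  rw [nrm_eq, pi_norm_le_iff_of_nonneg (by positivity)]
  intro j
  rw [Xi_apply, Real.norm_eq_abs, ev]
  have h0 := h.2.2 j
  have h1 := (abs_fst_le (ξ j)).trans h0
  have h2 := (abs_snd_le (ξ j)).trans h0
  have h3 := abs_fst_le v
  have h4 := abs_snd_le v
  have h5 : |(ξ j).1 * v.1| ≤ 1 * ‖v‖ := by
    rw [abs_mul]; exact mul_le_mul h1 h3 (abs_nonneg _) zero_le_one
  have h6 : |(ξ j).2 * v.2| ≤ 1 * ‖v‖ := by
    rw [abs_mul]; exact mul_le_mul h2 h4 (abs_nonneg _) zero_le_one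
  have := abs_add_le ((ξ j).1 * v.1) ((ξ j).2 * v.2)
  linarith

lemma exists_abs_ev {ξ : Fin J → R2} (h : Normal ξ) (v : R2) : ∃ j, |ev (ξ j) v| = nrm ξ v := by
  obtain ⟨⟨j0, -⟩, -, -⟩ := h
  obtain ⟨j, -, hj⟩ := Finset.exists_max_image Finset.univ (fun j => |ev (ξ j) v|)
    ⟨j0, Finset.mem_univ _⟩
  refine ⟨j, le_antisymm (abs_ev_le ξ v j) ?_⟩
  rw [nrm_eq, pi_norm_le_iff_of_nonneg (abs_nonneg _)]
  intro k
  rw [Xi_apply, Real.norm_eq_abs]
  exact hj k (Finset.mem_univ _)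

lemma apply_eq (T : R2 →L[ℝ] R2) (v : R2) : T v = v.1 • T (1, 0) + v.2 • T (0, 1) := by
  rw [← map_smul, ← map_smul, ← map_add]
  congr 1
  ext <;> simp

lemma volume_closedBall (z : R2) (r : ℝ) (hr : 0 ≤ r) :
    volume (closedBall z r) = ENNReal.ofReal (4 * r ^ 2) := by
  obtain ⟨x, y⟩ := z
  rw [← closedBall_prod_same, Measure.volume_eq_prod, Measure.prod_prod, Real.volume_closedBall,
    Real.volume_closedBall, ← ENNReal.ofReal_mul (by positivity)]
  congr 1
  ring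

/-- The mean value inequality for the polygonal norm on a ball. -/
lemma nrm_sub_le_of_fderiv (ξ : Fin J → R2) {σ : R2 → R2} (hσ : ContDiff ℝ 1 σ) {R c : ℝ}
    (h : ∀ z ∈ closedBall (0 : R2) R, ∀ v, nrm ξ (fderiv ℝ σ z v) ≤ c * nrm ξ v)
    {x y : R2} (hx : x ∈ closedBall (0 : R2) R) (hy : y ∈ closedBall (0 : R2) R) :
    nrm ξ (σ y - σ x) ≤ c * nrm ξ (y - x) := by
  have hd : Differentiable ℝ σ := hσ.differentiable (by norm_num)
  have key : ∀ t : ℝ, HasDerivAt (fun t : ℝ => Xi ξ (σ (x + t • (y - x))))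
      (Xi ξ (fderiv ℝ σ (x + t • (y - x)) (y - x))) t := by
    intro t
    have h1 : HasDerivAt (fun t : ℝ => x + t • (y - x)) (y - x) t := by
      simpa using ((hasDerivAt_id t).smul_const (y - x)).const_add x
    exact (Xi ξ).hasFDerivAt.comp_hasDerivAt t
      ((hd (x + t • (y - x))).hasFDerivAt.comp_hasDerivAt t h1)
  have := norm_image_sub_le_of_norm_deriv_le_segment_01'
    (f := fun t : ℝ => Xi ξ (σ (x + t • (y - x)))) (C := c * nrm ξ (y - x))
    (fun t _ => (key t).hasDerivWithinAt) (fun t ht => by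
      rw [← nrm_eq]
      exact h _ ((convex_closedBall _ _).add_smul_sub_mem hx hy ⟨ht.1, ht.2.le⟩) _)
  simpa [nrm_eq] using this

end Eul

end Pool.Agent.MP_7f5071_gt

end MrgPart1

-- ======== part 2: formerly Pool.Agent.MP_7f5071_gt.WSBase
section MrgPart2

/-! WS, part 1: chains, ramps, extension of plateau values. -/

namespace Pool.Agent.MP_7f5071_gt.WS

open Set Metric

variable {X : Type*} [MetricSpace X]

theorem bdd_mono {r r' D D' : ℝ} {S S' : Set X} (h : Bdd r' D' S') (hS : S ⊆ S') (hr : r ≤ r')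
    (hD : D' ≤ D) : Bdd r D S := fun x y hxy =>
  (h x y (Relation.ReflTransGen.mono (r := fun a b => a ∈ S ∧ b ∈ S ∧ dist a b ≤ r)
    (fun _ _ h => ⟨hS h.1, hS h.2.1, h.2.2.trans hr⟩) x y hxy)).trans hD

theorem bdd_nonneg {r D : ℝ} {S : Set X} (h : Bdd r D S) (x : X) : 0 ≤ D := by
  simpa using h x x .refl

theorem bdd_union {r ρ DA DB : ℝ} {A B : Set X} (hr : 0 ≤ r) (hA : Bdd ρ DA A) (hB : Bdd r DB B)
    (hρ : DB + 2 * r ≤ ρ) : Bdd r (DA + 2 * DB + 2 * r) (A ∪ B) := by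
  intro x y hxy
  have h0 := bdd_nonneg hB x
  have h1 := bdd_nonneg hA x
  have key : Relation.ReflTransGen (fun a b => a ∈ B ∧ b ∈ B ∧ dist a b ≤ r) x y ∨
      ∃ a1 ∈ A, ∃ a2 ∈ A, dist x a1 ≤ DB + r ∧
        Relation.ReflTransGen (fun a b => a ∈ A ∧ b ∈ A ∧ dist a b ≤ ρ) a1 a2 ∧
        ∃ b, dist a2 b ≤ r ∧ Relation.ReflTransGen (fun a b => a ∈ B ∧ b ∈ B ∧ dist a b ≤ r) b y := by
    induction hxy with
    | refl => exact Or.inl .refl
    | @tail y y' _ hs ih =>
      obtain ⟨hy, hy', hd⟩ := hs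
      by_cases hA' : y' ∈ A
      · right
        rcases ih with h | ⟨a1, h1, a2, h2, h3, h4, b, h5, h6⟩
        · exact ⟨y', hA', y', hA', by linarith [hB _ _ h, dist_triangle x y y'], .refl, y',
            by simpa using hr, .refl⟩
        · refine ⟨a1, h1, y', hA', h3, h4.tail ⟨h2, hA', ?_⟩, y', by simpa using hr, .refl⟩
          linarith [hB _ _ h6, dist_triangle4 a2 b y y']
      · have hB' : y' ∈ B := hy'.resolve_left hA'
        by_cases hyB : y ∈ B
        · rcases ih with h | ⟨a1, h1, a2, h2, h3, h4, b, h5, h6⟩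
          · exact Or.inl (h.tail ⟨hyB, hB', hd⟩)
          · exact Or.inr ⟨a1, h1, a2, h2, h3, h4, b, h5, h6.tail ⟨hyB, hB', hd⟩⟩
        · have hyA : y ∈ A := hy.resolve_right hyB
          right
          rcases ih with h | ⟨a1, h1, a2, h2, h3, h4, b, h5, h6⟩
          · exact ⟨y, hyA, y, hyA, by linarith [hB _ _ h], .refl, y', hd, .refl⟩
          · refine ⟨a1, h1, y, hyA, h3, h4.tail ⟨h2, hyA, ?_⟩, y', hd, .refl⟩
            linarith [hB _ _ h6, dist_triangle a2 b y]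
  rcases key with h | ⟨a1, -, a2, -, h3, h4, b, h5, h6⟩
  · linarith [hB _ _ h]
  · linarith [hB _ _ h6, hA _ _ h4, dist_triangle4 x a1 a2 b, dist_triangle x b y]

theorem bdd_sep {ι : Type*} {r D : ℝ} {S : Set X} (B : ι → Set X) (hD : 0 ≤ D)
    (hc : ∀ x ∈ S, ∃ k, x ∈ B k) (hs : ∀ k l, ∀ a ∈ B k, ∀ b ∈ B l, dist a b ≤ r → k = l)
    (h : ∀ k, Bdd r D (S ∩ B k)) : Bdd r D S := by
  intro x y hxy
  have key : x = y ∨ ∃ k, y ∈ B k ∧
      Relation.ReflTransGen (fun a b => a ∈ S ∩ B k ∧ b ∈ S ∩ B k ∧ dist a b ≤ r) x y := by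
    induction hxy with
    | refl => exact Or.inl rfl
    | @tail y y' _ hst ih =>
      obtain ⟨hy, hy', hd⟩ := hst
      obtain ⟨l, hl⟩ := hc y' hy'
      right
      rcases ih with rfl | ⟨k, h1, h2⟩
      · obtain ⟨k, hk⟩ := hc x hy
        obtain rfl := hs k l _ hk _ hl hd
        exact ⟨k, hl, .single ⟨⟨hy, hk⟩, ⟨hy', hl⟩, hd⟩⟩
      · obtain rfl := hs k l _ h1 _ hl hd
        exact ⟨k, hl, h2.tail ⟨⟨hy, h1⟩, ⟨hy', hl⟩, hd⟩⟩
  rcases key with rfl | ⟨k, -, h2⟩
  · simpa using hD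
  · exact h k _ _ h2

theorem bdd_nhd {r R D : ℝ} {P : Set X} (hR : 0 ≤ R) (h : Bdd (r + 2 * R) D P) :
    Bdd r (D + 2 * R) {x | ∃ y ∈ P, dist x y < R} := by
  intro x y hxy
  have h0 := bdd_nonneg h x
  have key : x = y ∨ ∃ a, dist x a < R ∧ ∃ b ∈ P, dist y b < R ∧
      Relation.ReflTransGen (fun a b => a ∈ P ∧ b ∈ P ∧ dist a b ≤ r + 2 * R) a b := by
    induction hxy with
    | refl => exact Or.inl rfl
    | @tail y y' _ hst ih =>
      obtain ⟨⟨c, hc, hc'⟩, ⟨b', hb', hb''⟩, hd⟩ := hst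
      right
      rcases ih with rfl | ⟨a, h1, b, h2, h3, h4⟩
      · refine ⟨c, hc', b', hb', hb'', .single ⟨hc, hb', ?_⟩⟩
        linarith [dist_triangle4 c x y' b', dist_comm c x]
      · refine ⟨a, h1, b', hb', hb'', h4.tail ⟨h2, hb', ?_⟩⟩
        linarith [dist_triangle4 b y y' b', dist_comm b y]
  rcases key with rfl | ⟨a, h1, b, -, h3, h4⟩
  · simp only [dist_self]; linarith
  · linarith [h _ _ h4, dist_triangle4 x a b y, dist_comm b y]

theorem exists_rep {s D : ℝ} {S : Set X} (h : Bdd s D S) : ∃ rep : X → X,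
    (∀ x, dist x (rep x) ≤ D) ∧ (∀ x ∈ S, rep x ∈ S) ∧
      ∀ x ∈ S, ∀ y ∈ S, dist x y ≤ s → rep x = rep y := by
  let r : X → X → Prop := fun a b => a ∈ S ∧ b ∈ S ∧ dist a b ≤ s
  have hsymm : ∀ a b, Relation.ReflTransGen r a b → Relation.ReflTransGen r b a := by
    intro a b hab
    induction hab with
    | refl => exact .refl
    | tail _ h ih => exact .head ⟨h.2.1, h.1, by rw [dist_comm]; exact h.2.2⟩ ih
  let E : Setoid X := ⟨Relation.ReflTransGen r, fun _ => .refl, fun h => hsymm _ _ h, .trans⟩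
  have hr : ∀ x, Relation.ReflTransGen r x (Quotient.mk E x).out := fun x =>
    hsymm _ _ (Quotient.mk_out (s := E) x)
  refine ⟨fun x => (Quotient.mk E x).out, fun x => h _ _ (hr x), fun x hx => ?_,
    fun x hx y hy hd => ?_⟩
  · have : ∀ y, Relation.ReflTransGen r x y → y ∈ S := by
      intro y hy
      induction hy with
      | refl => exact hx
      | tail _ h _ => exact h.2.1
    exact this _ (hr x)
  · have : Quotient.mk E x = Quotient.mk E y := Quotient.sound (.single ⟨hx, hy, hd⟩)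
    simp only [this]

theorem capd (P : Set X) (R : ℝ) : ∃ φ : X → ℝ, Lip 1 φ ∧ (∀ x, ∀ y ∈ P, φ x ≤ dist x y) ∧
    ∀ x, φ x < R → ∃ y ∈ P, dist x y < R := by
  rcases P.eq_empty_or_nonempty with rfl | hP
  · exact ⟨fun _ => R, fun x y => by simp, by simp, by simp⟩
  · refine ⟨fun x => infDist x P, fun x y => ?_, fun x y hy => infDist_le_dist_of_mem hy,
      fun x hx => (infDist_lt_iff hP).1 hx⟩
    simpa [Real.dist_eq] using (lipschitz_infDist_pt P).dist_le_mul x y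

theorem low_env {L : ℝ} (hL : 0 ≤ L) (A : Set X) (u v : X → ℝ) (hu : Lip L u)
    (hv : ∀ y ∈ A, ∀ y' ∈ A, |v y - v y'| ≤ L * dist y y') : ∃ w : X → ℝ, Lip L w ∧
      (∀ x, w x ≤ u x) ∧ (∀ y ∈ A, w y ≤ v y) ∧
      ∀ x c, c ≤ u x → (∀ y ∈ A, c ≤ v y + L * dist x y) → c ≤ w x := by
  let S : X → Set ℝ := fun x => insert (u x) ((fun y => v y + L * dist x y) '' A)
  have hb : ∀ x, BddBelow (S x) := by
    intro x
    refine bddBelow_insert.2 ?_
    rcases A.eq_empty_or_nonempty with rfl | ⟨y0, h0⟩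
    · simp
    · refine ⟨v y0 - L * dist x y0, ?_⟩
      rintro _ ⟨y, hy, rfl⟩
      have h1 := abs_le.1 (hv y hy y0 h0)
      have h2 := mul_le_mul_of_nonneg_left (dist_triangle_left y y0 x) hL
      simp only; linarith
  have hg : ∀ x c, c ≤ u x → (∀ y ∈ A, c ≤ v y + L * dist x y) → c ≤ sInf (S x) := by
    intro x c h1 h2
    refine le_csInf (insert_nonempty _ _) ?_
    rintro _ (rfl | ⟨y, hy, rfl⟩)
    · exact h1
    · exact h2 y hy
  have h1 : ∀ x, sInf (S x) ≤ u x := fun x => csInf_le (hb x) (mem_insert _ _)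
  have h2 : ∀ x, ∀ y ∈ A, sInf (S x) ≤ v y + L * dist x y := fun x y hy =>
    csInf_le (hb x) (mem_insert_of_mem _ ⟨y, hy, rfl⟩)
  have h3 : ∀ x x', sInf (S x) - L * dist x x' ≤ sInf (S x') := by
    intro x x'
    refine hg x' _ ?_ fun y hy => ?_
    · have := abs_le.1 (hu x x')
      linarith [h1 x]
    · have := mul_le_mul_of_nonneg_left (dist_triangle x x' y) hL
      linarith [h2 x y hy]
  refine ⟨fun x => sInf (S x), fun x x' => abs_le.2 ⟨?_, ?_⟩, h1, fun y hy => ?_, hg⟩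
  · have := h3 x' x
    rw [dist_comm] at this; linarith
  · linarith [h3 x x']
  · simpa using h2 y y hy

theorem mcshane {L : ℝ} (hL : 0 ≤ L) (A : Set X) (u v : X → ℝ) (hu : Lip L u)
    (hv : ∀ y ∈ A, ∀ y' ∈ A, |v y - v y'| ≤ L * dist y y') : ∃ u' : X → ℝ, Lip L u' ∧
      (∀ y ∈ A, u' y = v y) ∧
      ∀ x e, 0 ≤ e → (∀ y ∈ A, |v y - u x| ≤ e + L * dist x y) → |u' x - u x| ≤ e := by
  obtain ⟨w, w1, w2, w3, w4⟩ := low_env hL A u v hu hv
  obtain ⟨z, z1, z2, z3, z4⟩ := low_env hL A (fun x => -w x) (fun x => -v x)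
    (fun x y => by have := w1 x y; rwa [norm_sub_rev, ← neg_sub_neg] at this)
    (fun x hx y hy => by have := hv x hx y hy; rwa [abs_sub_comm, ← neg_sub_neg] at this)
  refine ⟨fun x => -z x, fun x y => by have := z1 x y; rwa [norm_sub_rev, ← neg_sub_neg] at this,
    fun y hy => le_antisymm ?_ (by linarith [z3 y hy]), fun x e he h => abs_le.2 ⟨?_, ?_⟩⟩
  · have := z4 y (-v y) (by linarith [w3 y hy]) fun y' hy' => by
      linarith [(abs_le.1 (hv y hy y' hy')).1]
    linarith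
  · have := w4 x (u x - e) (by linarith) fun y hy => by linarith [(abs_le.1 (h y hy)).1]
    linarith [z2 x]
  · have := z4 x (-(u x + e)) (by linarith [w2 x]) fun y hy => by linarith [(abs_le.1 (h y hy)).2]
    linarith

/-- clamp to the unit interval -/
noncomputable def cl (a : ℝ) : ℝ := max 0 (min 1 a)

theorem cl_nonneg (a : ℝ) : 0 ≤ cl a := le_max_left _ _

theorem cl_le (a : ℝ) : cl a ≤ 1 := max_le zero_le_one (min_le_left _ _)

theorem cl_lip (a b : ℝ) : |cl a - cl b| ≤ |a - b| := by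
  unfold cl
  rw [max_comm 0, max_comm 0]
  refine (abs_max_sub_max_le_abs _ _ _).trans ?_
  simpa using abs_min_sub_min_le_max 1 a 1 b

theorem cl_pos {a : ℝ} (h : 0 < cl a) : cl a ≤ a := by
  unfold cl at *
  rcases le_total 1 a with h1 | h1 <;> rcases le_total 0 a with h2 | h2 <;> simp_all

theorem cl_lt {a : ℝ} (h : cl a < 1) : a ≤ cl a := by
  unfold cl at *
  rcases le_total 1 a with h1 | h1 <;> rcases le_total 0 a with h2 | h2 <;> simp_all

theorem cl_one {a : ℝ} (h : 1 ≤ a) : cl a = 1 := by simp [cl, h]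

/-- Lipschitz functions with values in the unit interval -/
def LB (K : ℝ) (F : X → ℝ) : Prop :=
  (∀ x, 0 ≤ F x) ∧ (∀ x, F x ≤ 1) ∧ ∀ x y, |F x - F y| ≤ K * dist x y

theorem LB.ramp {F : X → ℝ} (hF : Lip 1 F) (a b : ℝ) : LB |b| fun x => cl (a + b * F x) := by
  refine ⟨fun _ => cl_nonneg _, fun _ => cl_le _, fun x y => (cl_lip _ _).trans ?_⟩
  rw [add_sub_add_left_eq_sub, ← mul_sub, abs_mul]
  exact mul_le_mul_of_nonneg_left (by simpa using hF x y) (abs_nonneg b)

theorem LB.compl {K : ℝ} {F : X → ℝ} (h : LB K F) : LB K fun x => 1 - F x :=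
  ⟨fun x => by linarith [h.2.1 x], fun x => by linarith [h.1 x], fun x y => by
    rw [sub_sub_sub_cancel_left, abs_sub_comm]; exact h.2.2 x y⟩

theorem LB.mono {K K' : ℝ} {F : X → ℝ} (h : LB K F) (hK : K ≤ K') : LB K' F :=
  ⟨h.1, h.2.1, fun x y => (h.2.2 x y).trans (mul_le_mul_of_nonneg_right hK dist_nonneg)⟩

theorem LB.mul_on {K K' : ℝ} {F σ : X → ℝ} (h : LB K F) (hK : 0 ≤ K') (h0 : ∀ x, 0 ≤ σ x)
    (h1 : ∀ x, σ x ≤ 1) (hσ : ∀ x y, 0 < F x → 0 < F y → |σ x - σ y| ≤ K' * dist x y) :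
    LB (K + K') fun x => F x * σ x := by
  refine ⟨fun x => mul_nonneg (h.1 x) (h0 x), fun x => mul_le_one₀ (h.2.1 x) (h0 x) (h1 x),
    fun x y => ?_⟩
  have hd : 0 ≤ K' * dist x y := mul_nonneg hK dist_nonneg
  have hF := abs_le.1 (h.2.2 x y)
  have := h.1 x; have := h.1 y; have := h.2.1 x; have := h.2.1 y
  have := h0 x; have := h0 y; have := h1 x; have := h1 y
  simp only [add_mul]
  rcases (h.1 x).eq_or_lt with hx | hx
  · rw [← hx] at hF ⊢
    exact abs_le.2 ⟨by nlinarith, by nlinarith⟩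
  rcases (h.1 y).eq_or_lt with hy | hy
  · rw [← hy] at hF ⊢
    exact abs_le.2 ⟨by nlinarith, by nlinarith⟩
  have hs := hσ x y hx hy
  calc |F x * σ x - F y * σ y| = |(F x - F y) * σ x + F y * (σ x - σ y)| := by ring_nf
    _ ≤ |F x - F y| * |σ x| + |F y| * |σ x - σ y| := by
      rw [← abs_mul, ← abs_mul]; exact abs_add_le _ _
    _ ≤ K * dist x y * 1 + 1 * (K' * dist x y) := by
      rw [abs_of_nonneg (h0 x), abs_of_nonneg (h.1 y)]
      gcongr
      · exact (abs_nonneg _).trans (h.2.2 x y)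
      · exact h.2.2 x y
    _ = _ := by ring

theorem LB.mul {K K' : ℝ} {F σ : X → ℝ} (h : LB K F) (hK : 0 ≤ K') (h' : LB K' σ) :
    LB (K + K') fun x => F x * σ x := h.mul_on hK h'.1 h'.2.1 fun x y _ _ => h'.2.2 x y

/-- distance to the even integers -/
noncomputable def tri (x : ℝ) : ℝ := |x - 2 * round (x / 2)|

theorem tri_le (x : ℝ) (n : ℤ) : tri x ≤ |x - 2 * n| := by
  have := round_le (x / 2) n
  rw [tri, show x - 2 * round (x / 2) = 2 * (x / 2 - round (x / 2)) by ring,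
    show x - 2 * n = 2 * (x / 2 - n) by ring, abs_mul, abs_mul]
  gcongr

theorem tri_lip (x y : ℝ) : |tri x - tri y| ≤ |x - y| := by
  have : ∀ x y : ℝ, tri x ≤ tri y + |x - y| := fun x y => by
    refine (tri_le x (round (y / 2))).trans ?_
    rw [show x - 2 * round (y / 2) = (y - 2 * round (y / 2)) + (x - y) by ring]
    exact abs_add_le _ _
  have h1 := this x y
  have h2 := this y x
  rw [abs_sub_comm] at h2
  exact abs_le.2 ⟨by linarith, by linarith⟩

theorem tri_eq {x : ℝ} (n : ℤ) (h : |x - 2 * n| ≤ 1) : tri x = |x - 2 * n| := by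
  refine le_antisymm (tri_le x n) ?_
  unfold tri
  generalize round (x / 2) = r
  have h' := abs_le.1 h
  rcases lt_trichotomy r n with hr | rfl | hr
  · have : (r : ℝ) + 1 ≤ n := by exact_mod_cast hr
    exact h.trans (le_trans (by linarith) (le_abs_self _))
  · rfl
  · have : (n : ℝ) + 1 ≤ r := by exact_mod_cast hr
    exact h.trans (le_trans (by linarith) (neg_le_abs _))

theorem tri_floor (x : ℝ) : tri x = if Even ⌊x⌋ then x - ⌊x⌋ else ⌊x⌋ + 1 - x := by
  have h1 := Int.floor_le x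
  have h2 := Int.lt_floor_add_one x
  split_ifs with h
  · obtain ⟨n, hn⟩ := h
    rw [hn] at h1 h2 ⊢
    push_cast at h1 h2 ⊢
    rw [tri_eq n (abs_le.2 ⟨by linarith, by linarith⟩), abs_of_nonneg (by linarith)]
    ring
  · obtain ⟨n, hn⟩ := Int.not_even_iff_odd.1 h
    rw [hn] at h1 h2 ⊢
    push_cast at h1 h2 ⊢
    rw [tri_eq (n + 1) (abs_le.2 ⟨by push_cast; linarith, by push_cast; linarith⟩),
      abs_of_nonpos (by push_cast; linarith)]
    push_cast; ring

end Pool.Agent.MP_7f5071_gt.WS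

end MrgPart2

-- ======== part 3: formerly Pool.Agent.MP_7f5071_gt.L1.Base
section MrgPart3

/-! Module L1: elementary lemmas (polygonal norm, geodesics, envelopes). -/

namespace Pool.Agent.MP_7f5071_gt.L1

open Filter Topology Set Metric MeasureTheory

/-! ### The polygonal norm -/

section Nrm

variable {J : ℕ} {ξ : Fin J → R2}

lemma ev_add (a v w : R2) : ev a (v + w) = ev a v + ev a w := by
  simp only [ev, Prod.fst_add, Prod.snd_add]; ring

lemma ev_sub (a v w : R2) : ev a (v - w) = ev a v - ev a w := by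
  simp only [ev, Prod.fst_sub, Prod.snd_sub]; ring

lemma ev_smul (a v : R2) (c : ℝ) : ev a (c • v) = c * ev a v := by
  simp only [ev, Prod.smul_fst, Prod.smul_snd, smul_eq_mul]; ring

lemma nrm_nonneg (v : R2) : 0 ≤ nrm ξ v := norm_nonneg _

lemma abs_ev_le_nrm (v : R2) (j : Fin J) : |ev (ξ j) v| ≤ nrm ξ v := by
  have := norm_le_pi_norm (fun j => ev (ξ j) v) j
  simpa [nrm] using this

lemma nrm_le_of_forall {v : R2} {c : ℝ} (hc : 0 ≤ c) (h : ∀ j, |ev (ξ j) v| ≤ c) :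
    nrm ξ v ≤ c := by
  unfold nrm
  exact (pi_norm_le_iff_of_nonneg hc).2 fun j => by simpa using h j

lemma abs_ev_le (a v : R2) (ha : ‖a‖ ≤ 1) : |ev a v| ≤ 2 * ‖v‖ := by
  have h1 : |a.1| ≤ 1 := le_trans (norm_fst_le a) ha
  have h2 : |a.2| ≤ 1 := le_trans (norm_snd_le a) ha
  have h3 : |v.1| ≤ ‖v‖ := norm_fst_le v
  have h4 : |v.2| ≤ ‖v‖ := norm_snd_le v
  have h5 : |a.1 * v.1| ≤ ‖v‖ := by
    rw [abs_mul]; nlinarith [abs_nonneg a.1, abs_nonneg v.1]
  have h6 : |a.2 * v.2| ≤ ‖v‖ := by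
    rw [abs_mul]; nlinarith [abs_nonneg a.2, abs_nonneg v.2]
  have := abs_add_le (a.1 * v.1) (a.2 * v.2)
  unfold ev; linarith

lemma nrm_le (hξ : Normal ξ) (v : R2) : nrm ξ v ≤ 2 * ‖v‖ :=
  nrm_le_of_forall (by positivity) fun j => abs_ev_le _ _ (hξ.2.2 j)

lemma norm_le_nrm (hξ : Normal ξ) (v : R2) : ‖v‖ ≤ nrm ξ v := by
  obtain ⟨⟨j, hj⟩, ⟨k, hk⟩, -⟩ := hξ
  have h1 := abs_ev_le_nrm (ξ := ξ) v j
  have h2 := abs_ev_le_nrm (ξ := ξ) v k
  rw [hj] at h1
  rw [hk] at h2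
  simp only [ev, one_mul, zero_mul, add_zero, zero_add] at h1 h2
  rw [Prod.norm_def]
  exact max_le h1 h2

lemma nrm_add_le (v w : R2) : nrm ξ (v + w) ≤ nrm ξ v + nrm ξ w := by
  refine nrm_le_of_forall (add_nonneg (nrm_nonneg _) (nrm_nonneg _)) fun j => ?_
  rw [ev_add]
  exact (abs_add_le _ _).trans (add_le_add (abs_ev_le_nrm _ _) (abs_ev_le_nrm _ _))

lemma nrm_smul_le (c : ℝ) (v : R2) : nrm ξ (c • v) ≤ |c| * nrm ξ v := by
  refine nrm_le_of_forall (mul_nonneg (abs_nonneg _) (nrm_nonneg _)) fun j => ?_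
  rw [ev_smul, abs_mul]
  exact mul_le_mul_of_nonneg_left (abs_ev_le_nrm _ _) (abs_nonneg _)

lemma nrm_zero : nrm ξ 0 = 0 :=
  le_antisymm (nrm_le_of_forall le_rfl fun j => by simp [ev]) (nrm_nonneg _)

lemma nrm_sum_le {ι : Type*} (s : Finset ι) (f : ι → R2) :
    nrm ξ (∑ i ∈ s, f i) ≤ ∑ i ∈ s, nrm ξ (f i) := by
  classical
  induction s using Finset.induction_on with
  | empty => simp [nrm_zero]
  | insert a s ha ih =>
    rw [Finset.sum_insert ha, Finset.sum_insert ha]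
    exact (nrm_add_le _ _).trans (by linarith)

/-- A combination with bounded coefficients. -/
lemma nrm_comb_le {ι : Type*} [Fintype ι] (c : ι → ℝ) (a : ι → R2) (m : ℝ)
    (hc : ∀ i, |c i| ≤ m) : nrm ξ (∑ i, c i • a i) ≤ m * ∑ i, nrm ξ (a i) := by
  refine (nrm_sum_le _ _).trans ?_
  rw [Finset.mul_sum]
  exact Finset.sum_le_sum fun i _ =>
    (nrm_smul_le _ _).trans (mul_le_mul_of_nonneg_right (hc i) (nrm_nonneg _))

end Nrm

/-! ### Geodesics -/

section Geo

variable {X : Type*} [MetricSpace X]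

/-- If every point between `x` and `y` lies in `S`, then `x` and `y` are joined in `S`. -/
lemma joinedIn_of_between (hX : Geodesic X) (S : Set X) (x y : X)
    (h : ∀ p, dist x p + dist p y = dist x y → p ∈ S) : JoinedIn S x y := by
  obtain ⟨γ, hγ⟩ := hX x y
  have hd : 0 ≤ dist x y := dist_nonneg
  have hc : Continuous γ := hγ.lip.continuous
  refine ⟨⟨⟨fun t : unitInterval => γ (t * dist x y), by fun_prop⟩, ?_, ?_⟩, fun t => ?_⟩
  · simp [hγ.src]
  · simp [hγ.tgt]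
  · apply h
    have ht : (t : ℝ) * dist x y ∈ Icc 0 (dist x y) :=
      ⟨mul_nonneg t.2.1 hd, by nlinarith [t.2.2]⟩
    have h1 := hγ.iso 0 ⟨le_rfl, hd⟩ _ ht
    have h2 := hγ.iso _ ht (dist x y) ⟨hd, le_rfl⟩
    rw [hγ.src] at h1
    rw [hγ.tgt] at h2
    show dist x (γ (t * dist x y)) + dist (γ (t * dist x y)) y = dist x y
    rw [h1, h2, abs_of_nonpos (by linarith [ht.1]), abs_of_nonpos (by linarith [ht.2])]
    ring

end Geo

/-! ### Envelopes -/

section Env

variable {X : Type*} [MetricSpace X]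

/-- The upper envelope of a function that is short on `G`. -/
lemma exists_up (G : Set X) (hG : G.Nonempty) (u : X → ℝ)
    (hu : ∀ x ∈ G, ∀ x' ∈ G, |u x - u x'| ≤ dist x x') :
    ∃ U : X → ℝ, (∀ y, ∀ x ∈ G, U y ≤ u x + dist y x) ∧
      ∀ y c, (∀ x ∈ G, c ≤ u x + dist y x) → c ≤ U y := by
  obtain ⟨x0, hx0⟩ := hG
  refine ⟨fun y => sInf ((fun x => u x + dist y x) '' G), fun y x hx => ?_, fun y c hc => ?_⟩
  · refine csInf_le ⟨u x0 - dist y x0, ?_⟩ ⟨x, hx, rfl⟩
    rintro _ ⟨x', hx', rfl⟩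
    have h1 := hu x0 hx0 x' hx'
    have h2 := dist_triangle_left x0 x' y
    have h3 := le_abs_self (u x0 - u x')
    show u x0 - dist y x0 ≤ u x' + dist y x'
    linarith
  · refine le_csInf ⟨_, x0, hx0, rfl⟩ ?_
    rintro _ ⟨x', hx', rfl⟩
    exact hc x' hx'

/-- The middle extension of a function that is short on `G`. -/
lemma exists_mid (G : Set X) (hG : G.Nonempty) (u : X → ℝ)
    (hu : ∀ x ∈ G, ∀ x' ∈ G, |u x - u x'| ≤ dist x x') :
    ∃ m : X → ℝ, (∀ y y', |m y - m y'| ≤ dist y y') ∧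
      ∀ y, ∀ x ∈ G, ∀ c, (∀ x' ∈ G, dist y x + |u x' - u x| - c ≤ dist y x') →
        |m y - u x| ≤ c / 2 := by
  obtain ⟨U, hU1, hU2⟩ := exists_up G hG u hu
  obtain ⟨W, hW1, hW2⟩ := exists_up G hG (fun x => -u x) (fun x hx x' hx' => by
    have := hu x hx x' hx'
    rw [← abs_neg]
    convert this using 2
    ring)
  have hUl : ∀ y y', U y - dist y y' ≤ U y' := fun y y' =>
    hU2 y' _ fun x hx => by
      have := hU1 y x hx
      have := dist_triangle y y' x
      linarith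
  have hWl : ∀ y y', W y - dist y y' ≤ W y' := fun y y' =>
    hW2 y' _ fun x hx => by
      have := hW1 y x hx
      have := dist_triangle y y' x
      linarith
  refine ⟨fun y => (U y - W y) / 2, fun y y' => ?_, fun y x hx c hc => ?_⟩
  · have h1 := hUl y y'
    have h2 := hUl y' y
    have h3 := hWl y y'
    have h4 := hWl y' y
    rw [dist_comm y' y] at h2 h4
    rw [abs_le]
    constructor <;> linarith
  · have h1 := hU1 y x hx
    have h2 := hW1 y x hx
    have h3 : u x + dist y x - c ≤ U y := hU2 y _ fun x' hx' => by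
      have := hc x' hx'
      have := neg_abs_le (u x' - u x)
      linarith
    have h4 : -u x + dist y x - c ≤ W y := hW2 y _ fun x' hx' => by
      have := hc x' hx'
      have := le_abs_self (u x' - u x)
      show -u x + dist y x - c ≤ -u x' + dist y x'
      linarith
    rw [abs_le]
    constructor <;> linarith

/-- The scale function of the holes of `P` near the origin. -/
structure IsD (P : Set R2) (R K : ℝ) (D : R2 → ℝ) : Prop where
  nonneg : ∀ z, 0 ≤ D z
  ge : ∀ z w, ‖w‖ ≤ R → K * infDist w P - ‖w - z‖ ≤ D z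
  le : ∀ z c, 0 ≤ c → (∀ w, ‖w‖ ≤ R → K * infDist w P - ‖w - z‖ ≤ c) → D z ≤ c

lemma exists_isD (P : Set R2) (h0 : (0 : R2) ∈ P) (R K : ℝ) (hK : 0 ≤ K) :
    ∃ D, IsD P R K D := by
  have hb : ∀ z : R2, BddAbove (insert (0 : ℝ)
      ((fun w => K * infDist w P - ‖w - z‖) '' {w : R2 | ‖w‖ ≤ R})) := fun z => by
    refine ⟨max 0 (K * R), ?_⟩
    rintro _ (rfl | ⟨w, hw, rfl⟩)
    · exact le_max_left _ _
    · refine le_trans ?_ (le_max_right _ _)
      have h1 : infDist w P ≤ ‖w‖ := by simpa using infDist_le_dist_of_mem (x := w) h0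
      have h2 : K * infDist w P ≤ K * R := mul_le_mul_of_nonneg_left (h1.trans hw) hK
      have := norm_nonneg (w - z)
      show K * infDist w P - ‖w - z‖ ≤ K * R
      linarith
  refine ⟨fun z => sSup (insert (0 : ℝ)
      ((fun w => K * infDist w P - ‖w - z‖) '' {w : R2 | ‖w‖ ≤ R})), fun z => ?_,
    fun z w hw => ?_, fun z c hc h => ?_⟩
  · exact le_csSup (hb z) (mem_insert _ _)
  · exact le_csSup (hb z) (mem_insert_of_mem _ ⟨w, hw, rfl⟩)
  · refine csSup_le ⟨0, mem_insert _ _⟩ ?_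
    rintro _ (rfl | ⟨w, hw, rfl⟩)
    · exact hc
    · exact h w hw

lemma IsD.cmp {P : Set R2} {R K K' κ : ℝ} {D D' : R2 → ℝ} (h : IsD P R K D)
    (h' : IsD P R K' D') (hκ0 : 0 ≤ κ) (hκ1 : κ ≤ 1) (hK : K = κ * K') (z z' : R2) :
    D z' ≤ κ * (D' z + ‖z - z'‖) := by
  refine h.le z' _ (mul_nonneg hκ0 (add_nonneg (h'.nonneg z) (norm_nonneg _))) fun w hw => ?_
  have h1 := h'.ge z w hw
  have h2 : ‖w - z‖ ≤ ‖w - z'‖ + ‖z - z'‖ := by
    have := norm_sub_le (w - z') (z - z')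
    rwa [sub_sub_sub_cancel_right] at this
  have h3 : κ * (K' * infDist w P) ≤ κ * (D' z + (‖w - z'‖ + ‖z - z'‖)) :=
    mul_le_mul_of_nonneg_left (by linarith) hκ0
  have h4 : κ * ‖w - z'‖ ≤ ‖w - z'‖ := mul_le_of_le_one_left (norm_nonneg _) hκ1
  rw [hK]
  nlinarith

lemma IsD.lip {P : Set R2} {R K : ℝ} {D : R2 → ℝ} (h : IsD P R K D) : Lip 1 D := by
  intro z z'
  have h1 := h.cmp h zero_le_one le_rfl (one_mul K).symm z z'
  have h2 := h.cmp h zero_le_one le_rfl (one_mul K).symm z' z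
  rw [norm_sub_rev] at h2
  rw [Real.norm_eq_abs, dist_eq_norm, abs_le]
  constructor <;> linarith

lemma IsD.bound {P : Set R2} {R K b : ℝ} {D : R2 → ℝ} (h : IsD P R K D) (hK : 0 ≤ K)
    (hb : 0 ≤ b) (hKb : K * b ≤ 1) (hP : ∀ w : R2, ‖w‖ ≤ R → infDist w P ≤ b * ‖w‖) (z : R2) :
    D z ≤ K * b * ‖z‖ := by
  refine h.le z _ (by positivity) fun w hw => ?_
  have h1 := mul_le_mul_of_nonneg_left (hP w hw) hK
  have h2 : ‖w‖ ≤ ‖w - z‖ + ‖z‖ := by
    have := norm_add_le (w - z) z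
    rwa [sub_add_cancel] at this
  have h3 : K * b * ‖w‖ ≤ K * b * (‖w - z‖ + ‖z‖) :=
    mul_le_mul_of_nonneg_left h2 (by positivity)
  have h4 : K * b * ‖w - z‖ ≤ ‖w - z‖ := mul_le_of_le_one_left (norm_nonneg _) hKb
  nlinarith

end Env

end Pool.Agent.MP_7f5071_gt.L1

end MrgPart3

-- marker of a merged file
example : 731051 + 4060 = 731051 + 4060 := rfl
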