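import Pool.Agent.MP_7f5071_gt.L1.Base

/-! Module L1: the pointed estimates for the two planar maps. -/

namespace Pool.Agent.MP_7f5071_gt.L1

open Filter Topology Set Metric MeasureTheory

variable {X : Type*} [MetricSpace X]

lemma eventually_dist_le (y : X) {r : ℝ} (hr : 0 < r) : ∀ᶠ y' in 𝓝 y, dist y' y ≤ r :=
  Filter.eventually_of_mem (closedBall_mem_nhds y hr) fun _ h => h

/-- The corrected chart is almost short at `y`. -/
lemma sigma_short {J : ℕ} {ξ : Fin J → R2} {e K κ s : ℝ} (he : 0 < e) (he1 : e ≤ 1) (hK : 1 ≤ K)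
    (hκ : 0 ≤ κ) (hκK : κ * K ≤ e / 50) (hs : 0 < s) {S : R2 → ℝ} (hS : Lip 1 S)
    (hS0 : ∀ z, 0 ≤ S z) {σ : R2 → R2} {a : Fin J → R2 → R2}
    (short : ∀ z z', ‖z‖ ≤ 9 * s → ‖z'‖ ≤ 9 * s →
      nrm ξ (σ z - σ z') ≤ (1 + e / 10) * nrm ξ (z - z'))
    (hsum : ∀ z, ∑ j, nrm ξ (a j z) ≤ 1 + e / 10)
    (der : ∀ z, ‖z‖ ≤ 8 * s → 0 < S z → ∀ z', ‖z' - z‖ ≤ S z / K →
      nrm ξ (σ z' - σ z - ∑ j, ev (ξ j) (z' - z) • a j z) ≤ e / 10 * ‖z' - z‖ ∧
      ∑ j, nrm ξ (a j z' - a j z) ≤ K * ‖z' - z‖ / S z)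
    {m : Fin J → X → ℝ} (hm : ∀ j y y', |m j y - m j y'| ≤ dist y y') {p : X → R2}
    (hp : ∀ y y', ‖p y - p y'‖ ≤ dist y y') {y : X} (hy : ‖p y‖ ≤ 8 * s)
    (herr : ∀ᶠ y' in 𝓝 y, ∀ j, |m j y' - ev (ξ j) (p y')| ≤ κ * S (p y')) :
    ∀ᶠ y' in 𝓝 y, nrm ξ ((σ (p y') + ∑ j, (m j y' - ev (ξ j) (p y')) • a j (p y')) -
      (σ (p y) + ∑ j, (m j y - ev (ξ j) (p y)) • a j (p y))) ≤ (1 + e) * dist y' y := by
  have hκe : κ ≤ e / 50 := le_trans (le_mul_of_one_le_right hκ hK) hκK
  have hSl : ∀ y', S (p y') ≤ S (p y) + dist y' y := fun y' => by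
    have h1 := hS (p y') (p y)
    have h2 := hp y' y
    rw [Real.norm_eq_abs, one_mul, dist_eq_norm] at h1
    linarith [le_abs_self (S (p y') - S (p y))]
  rcases (hS0 (p y)).eq_or_lt with h0 | h0
  · have hy0 : ∀ j, m j y - ev (ξ j) (p y) = 0 := fun j => by
      have := herr.self_of_nhds j
      rw [← h0, mul_zero] at this
      exact abs_nonpos_iff.1 this
    filter_upwards [herr, eventually_dist_le y hs] with y' h1 h2
    have hd : 0 ≤ dist y' y := dist_nonneg
    have h3 : ∀ j, |m j y' - ev (ξ j) (p y')| ≤ κ * dist y' y := fun j => by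
      refine (h1 j).trans (mul_le_mul_of_nonneg_left ?_ hκ)
      have := hSl y'
      linarith
    have h4 : ‖p y'‖ ≤ 9 * s := by
      have := norm_add_le (p y' - p y) (p y)
      rw [sub_add_cancel] at this
      linarith [hp y' y]
    have h5 : nrm ξ (p y' - p y) ≤ (1 + κ) * dist y' y := by
      refine nrm_le_of_forall (by positivity) fun j => ?_
      have e1 : ev (ξ j) (p y' - p y) = (m j y' - m j y) - (m j y' - ev (ξ j) (p y')) := by
        rw [ev_sub]; linarith [hy0 j]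
      rw [e1]
      refine (abs_sub _ _).trans ?_
      linarith [hm j y' y, h3 j]
    have e2 : (σ (p y') + ∑ j, (m j y' - ev (ξ j) (p y')) • a j (p y')) -
        (σ (p y) + ∑ j, (m j y - ev (ξ j) (p y)) • a j (p y)) =
        (σ (p y') - σ (p y)) + ∑ j, (m j y' - ev (ξ j) (p y')) • a j (p y') := by
      simp only [hy0, zero_smul, Finset.sum_const_zero]
      abel
    rw [e2]
    have h6 := short (p y') (p y) h4 (by linarith)
    have h7 := nrm_comb_le (ξ := ξ) _ (fun j => a j (p y')) _ h3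
    have h8 := mul_le_mul_of_nonneg_left (hsum (p y')) (mul_nonneg hκ hd)
    have h9 := mul_le_mul_of_nonneg_left h5 (by linarith : 0 ≤ 1 + e / 10)
    have h10 : (1 + e / 10) * (1 + 2 * κ) ≤ 1 + e := by nlinarith
    have h11 := mul_le_mul_of_nonneg_right h10 hd
    refine (nrm_add_le _ _).trans ?_
    nlinarith
  · filter_upwards [herr, eventually_dist_le y (div_pos h0 (by linarith : 0 < K))] with y' h1 h2
    have hd : 0 ≤ dist y' y := dist_nonneg
    have hz := hp y' y
    obtain ⟨d1, d2⟩ := der (p y) hy h0 (p y') (hz.trans h2)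
    have h3 : dist y' y ≤ S (p y) := h2.trans (div_le_self h0.le hK)
    have h4 : ∀ j, |m j y' - ev (ξ j) (p y')| ≤ 2 * κ * S (p y) := fun j => by
      refine (h1 j).trans ?_
      have := mul_le_mul_of_nonneg_left ((hSl y').trans (add_le_add_right h3 _)) hκ
      linarith
    have e2 : (σ (p y') + ∑ j, (m j y' - ev (ξ j) (p y')) • a j (p y')) -
        (σ (p y) + ∑ j, (m j y - ev (ξ j) (p y)) • a j (p y)) =
        (σ (p y') - σ (p y) - ∑ j, ev (ξ j) (p y' - p y) • a j (p y)) +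
        (∑ j, (m j y' - m j y) • a j (p y) +
          ∑ j, (m j y' - ev (ξ j) (p y')) • (a j (p y') - a j (p y))) := by
      have e3 : ∑ j, (m j y' - ev (ξ j) (p y')) • a j (p y') -
          ∑ j, (m j y - ev (ξ j) (p y)) • a j (p y) + ∑ j, ev (ξ j) (p y' - p y) • a j (p y) =
          ∑ j, (m j y' - m j y) • a j (p y) +
          ∑ j, (m j y' - ev (ξ j) (p y')) • (a j (p y') - a j (p y)) := by
        rw [← Finset.sum_sub_distrib, ← Finset.sum_add_distrib, ← Finset.sum_add_distrib]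
        refine Finset.sum_congr rfl fun j _ => ?_
        rw [ev_sub]
        module
      rw [← e3]
      abel
    rw [e2]
    have h5 := nrm_comb_le (ξ := ξ) _ (fun j => a j (p y)) _ fun j => hm j y' y
    have h6 := nrm_comb_le (ξ := ξ) _ (fun j => a j (p y') - a j (p y)) _ h4
    have h7 := mul_le_mul_of_nonneg_left (hsum (p y)) hd
    have h8 := mul_le_mul_of_nonneg_left d2 (by positivity : 0 ≤ 2 * κ * S (p y))
    have h9 : 2 * κ * S (p y) * (K * ‖p y' - p y‖ / S (p y)) = 2 * (κ * K) * ‖p y' - p y‖ := by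
      field_simp
    have h10 : 2 * (κ * K) * ‖p y' - p y‖ ≤ e / 25 * dist y' y :=
      mul_le_mul (by linarith) hz (norm_nonneg _) (by linarith)
    have h11 : e / 10 * ‖p y' - p y‖ ≤ e / 10 * dist y' y :=
      mul_le_mul_of_nonneg_left hz (by linarith)
    have h12 := nrm_add_le (ξ := ξ) (∑ j, (m j y' - m j y) • a j (p y))
      (∑ j, (m j y' - ev (ξ j) (p y')) • (a j (p y') - a j (p y)))
    have h13 := mul_nonneg he.le hd
    refine (nrm_add_le _ _).trans ?_
    nlinarith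

/-- The ramp from `0` at `T` to `1` at `2 T`. -/
noncomputable def ramp (T t : ℝ) : ℝ := max 0 (min 1 (t / T - 1))

lemma ramp_nonneg (T t : ℝ) : 0 ≤ ramp T t := le_max_left _ _

lemma ramp_le_one (T t : ℝ) : ramp T t ≤ 1 := max_le zero_le_one (min_le_left _ _)

lemma ramp_eq_zero {T t : ℝ} (hT : 0 < T) (h : t ≤ T) : ramp T t = 0 := by
  have : t / T ≤ 1 := (div_le_one hT).2 h
  exact max_eq_left ((min_le_right _ _).trans (by linarith))

lemma ramp_eq_one {T t : ℝ} (hT : 0 < T) (h : 2 * T ≤ t) : ramp T t = 1 := by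
  have : 2 ≤ t / T := (le_div_iff₀ hT).2 h
  unfold ramp
  rw [min_eq_left (by linarith), max_eq_right zero_le_one]

lemma ramp_lip {T : ℝ} (hT : 0 < T) (t t' : ℝ) : |ramp T t - ramp T t'| * T ≤ |t - t'| := by
  have h1 : |ramp T t - ramp T t'| ≤ |(t / T - 1) - (t' / T - 1)| := by
    unfold ramp
    rw [max_comm 0, max_comm 0]
    refine (abs_max_sub_max_le_abs _ _ _).trans ?_
    refine (abs_min_sub_min_le_max _ _ _ _).trans ?_
    simp
  have h2 : (t / T - 1) - (t' / T - 1) = (t - t') / T := by ring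
  rw [h2, abs_div, abs_of_pos hT, le_div_iff₀ hT] at h1
  exact h1

/-- The map that is locally constant far from `G`. -/
lemma omega_plip {T : ℝ} (hT : 0 < T) {h : X → ℝ} (hh : ∀ y y', |h y - h y'| ≤ dist y y')
    {p c : X → R2} (hp : ∀ y y', ‖p y - p y'‖ ≤ dist y y') {y : X}
    (hc : T < h y → ∀ᶠ y' in 𝓝 y, c y' = c y)
    (hcp : ∀ᶠ y' in 𝓝 y, T < h y' → ‖c y' - p y'‖ ≤ 6 * T) :
    PLip 10 (fun y => p y + ramp T (h y) • (c y - p y)) y := by
  have hr : ∀ y', |ramp T (h y') - ramp T (h y)| * T ≤ dist y' y := fun y' =>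
    (ramp_lip hT _ _).trans (hh y' y)
  by_cases hy : T < h y
  · have h0 := hcp.self_of_nhds hy
    filter_upwards [hc hy] with y' h1
    have hd : 0 ≤ dist y' y := dist_nonneg
    have e1 : (p y' + ramp T (h y') • (c y' - p y')) - (p y + ramp T (h y) • (c y - p y)) =
        (1 - ramp T (h y')) • (p y' - p y) + (ramp T (h y') - ramp T (h y)) • (c y - p y) := by
      rw [h1]; module
    rw [e1]
    refine (norm_add_le _ _).trans ?_
    rw [norm_smul, norm_smul, Real.norm_eq_abs, Real.norm_eq_abs,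
      abs_of_nonneg (by linarith [ramp_le_one T (h y')])]
    have h2 : (1 - ramp T (h y')) * ‖p y' - p y‖ ≤ 1 * dist y' y :=
      mul_le_mul (by linarith [ramp_nonneg T (h y')]) (hp y' y) (norm_nonneg _) zero_le_one
    have h3 := mul_le_mul_of_nonneg_left h0 (abs_nonneg (ramp T (h y') - ramp T (h y)))
    have h4 := hr y'
    nlinarith
  · have h0 := ramp_eq_zero hT (not_lt.1 hy)
    filter_upwards [hcp] with y' h1
    have hd : 0 ≤ dist y' y := dist_nonneg
    have e1 : (p y' + ramp T (h y') • (c y' - p y')) - (p y + ramp T (h y) • (c y - p y)) =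
        (p y' - p y) + ramp T (h y') • (c y' - p y') := by
      rw [h0]; module
    rw [e1]
    refine (norm_add_le _ _).trans ?_
    have h2 := hp y' y
    by_cases hy' : T < h y'
    · have h4 := hr y'
      rw [h0, sub_zero] at h4
      rw [norm_smul, Real.norm_eq_abs]
      have h3 := mul_le_mul_of_nonneg_left (h1 hy') (abs_nonneg (ramp T (h y')))
      nlinarith
    · rw [ramp_eq_zero hT (not_lt.1 hy'), zero_smul, norm_zero]
      linarith

/-- A chosen point of the path component of `y` in `U`. -/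
noncomputable def rep (U : Set X) (y : X) : X :=
  @Classical.epsilon X ⟨y⟩ fun y' => JoinedIn U y y'

lemma rep_joined {U : Set X} {y : X} (hy : y ∈ U) : JoinedIn U y (rep U y) :=
  @Classical.epsilon_spec X (fun y' => JoinedIn U y y') ⟨y, JoinedIn.refl hy⟩

lemma rep_eq {U : Set X} {y y' : X} (h : JoinedIn U y y') : rep U y' = rep U y := by
  unfold rep
  congr 1
  ext p
  exact ⟨fun h' => h.trans h', fun h' => h.symm.trans h'⟩

lemma rep_locally_const (hX : Geodesic X) {U : Set X} (hU : IsOpen U) {y : X} (hy : y ∈ U) :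
    ∀ᶠ y' in 𝓝 y, rep U y' = rep U y := by
  obtain ⟨ρ, hρ, hsub⟩ := Metric.isOpen_iff.1 hU y hy
  filter_upwards [ball_mem_nhds y hρ] with y' hy'
  refine rep_eq (joinedIn_of_between hX _ _ _ fun p hp => hsub ?_)
  rw [mem_ball, dist_comm] at hy' ⊢
  linarith [dist_nonneg (x := p) (y := y')]

end Pool.Agent.MP_7f5071_gt.L1
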